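import Pool.Agent.MWGR.StmtsC

/-!
# MWGR, row MV1: crossing gives the insertion behind a light letter
-/

set_option autoImplicit false

namespace Pool.Agent.MWGR.H51

open Pool.Agent.Helper14_MV Pool.Agent.Helper2_MV Pool.Agent.MVO Pool.Agent.MWL Pool.Agent.MWS
  Pool.Agent.MWH Pool.Agent.MWGR

theorem repc (x : ℕ) (R : List ℕ) : ∀ n : ℕ,
    List.replicate n x ++ x :: R = x :: (List.replicate n x ++ R)
  | 0 => rfl
  | n + 1 => by
    rw [List.replicate_succ, List.cons_append, repc x R n, List.cons_append]

/-- **MV1**. -/
theorem mv1 : Mv1Stmt := by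
  intro n η hB H pre suf x a ha hC A D hO
  have hx : x ∈ H := by
    by_contra hx
    have h1 := (hO.lt x (by simp) hx).1
    rw [List.count_append, List.count_cons_self, List.count_cons_self] at h1
    omega
  have hxa : x ≠ a := fun e => ha (e ▸ hx)
  have ha' := hO.lt a (by simp) ha
  have h1 := hC (A ++ [x]) D (by
    rw [List.append_assoc]
    exact hO)
  have h2 := hB.it (pre ++ A) [a] [] (D ++ suf) x (by
    intro b hb
    rw [List.append_nil, List.mem_singleton] at hb
    subst hb
    have h3 : 0 < suf.count b := List.count_pos_iff.2 ha'.2.2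
    simp only [List.count_append, List.nil_append, List.count_cons, List.count_nil,
      beq_self_eq_true, if_true]
    omega)
  have hO' : Ok1 H pre suf (A ++ x :: x :: a :: (List.replicate n x ++ D)) := by
    refine ⟨hO.nd, fun y hy => ?_, fun b hb hbH => ?_⟩
    · have h3 := hO.hv y hy
      simp only [List.count_append, List.count_cons] at h3 ⊢
      omega
    · have hbx : x ≠ b := fun e => hbH (e ▸ hx)
      have hb' : b ∈ A ++ x :: x :: a :: D := by
        simp only [List.mem_append, List.mem_cons] at hb ⊢
        rcases hb with h | h | h | h | h | h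
        · exact Or.inl h
        · exact Or.inr (Or.inl h)
        · exact Or.inr (Or.inl h)
        · exact Or.inr (Or.inr (Or.inr (Or.inl h)))
        · exact absurd (List.eq_of_mem_replicate h).symm hbx
        · exact Or.inr (Or.inr (Or.inr (Or.inr h)))
      have h3 := hO.lt b hb' hbH
      refine ⟨?_, h3.2⟩
      have h4 : (List.replicate n x).count b = 0 :=
        List.count_eq_zero.2 (fun h => hbx (List.eq_of_mem_replicate h).symm)
      have h5 := h3.1
      simp only [List.count_append, List.count_cons, h4] at h5 ⊢
      omega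
  have h3 := hC (A ++ [x]) (List.replicate n x ++ D) (by
    rw [List.append_assoc]
    exact hO')
  have e2 : pre ++ A ++ x :: ([a] ++ (List.replicate n x ++ ([] ++ x :: (D ++ suf)))) =
      Wd pre suf (A ++ [x] ++ a :: x :: (List.replicate n x ++ D)) := by
    rw [List.nil_append, repc]
    simp [Wd]
  have e1 : pre ++ A ++ x :: ([a] ++ ([] ++ x :: (D ++ suf))) =
      Wd pre suf (A ++ [x] ++ a :: x :: D) := by
    simp [Wd]
  rw [e1, e2] at h2
  have e3 : A ++ [x] ++ x :: a :: D = A ++ x :: x :: a :: D := by simp
  have e4 : A ++ [x] ++ x :: a :: (List.replicate n x ++ D) =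
      A ++ x :: x :: a :: (List.replicate n x ++ D) := by simp
  rw [e3] at h1
  rw [e4] at h3
  exact η.trans h1 (η.trans h2 h3.symm)

end Pool.Agent.MWGR.H51
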